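import Pool.Agent.KS6_79.IC.Ring

set_option autoImplicit false

/-!
# Ideal Chomp: the second player wins on finite extensions of all local rings with a residue field
that is not quadratically closed
-/

universe u

namespace Pool.Agent.Results.MP_ba75bf_co.AnyResidueField

open IsLocalRing

section game

variable {R : Type u} [CommRing R]

/-- The ideal `I` of the position reached after the moves in the list `l`
(`(0)` for the empty list). -/
def posIdeal (l : List R) : Ideal R := Ideal.span {x | x ∈ l}

/-- The list of all moves of the first `n` rounds of the Ideal Chomp game (a round is a move of A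
followed by a move of B) when A plays `α 0, α 1, …` and B answers according to `σ`, a function of
the list of all moves made so far. -/
def history (σ : List R → R) (α : ℕ → R) : ℕ → List R
  | 0 => []
  | n + 1 => (history σ α n ++ [α n]) ++ [σ (history σ α n ++ [α n])]

/-- `σ` is a winning strategy for B in the Ideal Chomp game on `R`. For every sequence `α` of
elements of `R` that A may want to play there is a round `N` such that: in each round `k < N` the
choice `α k` of A is a legal move (not in the current ideal) that does not produce `R`, and the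
answer of B is a legal move that does not produce `R`; and in round `N` the choice `α N` of A is
either illegal (it lies in the current ideal) or produces `R`, so that A loses. -/
def BWins (σ : List R → R) : Prop :=
  ∀ α : ℕ → R, ∃ N : ℕ,
    (∀ k < N,
      α k ∉ posIdeal (history σ α k) ∧
      posIdeal (history σ α k ++ [α k]) ≠ ⊤ ∧
      σ (history σ α k ++ [α k]) ∉ posIdeal (history σ α k ++ [α k]) ∧
      posIdeal (history σ α (k + 1)) ≠ ⊤) ∧
    (α N ∈ posIdeal (history σ α N) ∨ posIdeal (history σ α N ++ [α N]) = ⊤)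

theorem posIdeal_append (l : List R) (a : R) :
    posIdeal (l ++ [a]) = posIdeal l ⊔ Ideal.span {a} := by
  unfold posIdeal
  rw [← Ideal.span_union]
  congr 1
  ext x
  simp [or_comm]

theorem mem_append {l : List R} {a x : R} :
    x ∈ posIdeal (l ++ [a]) ↔ ∃ y ∈ posIdeal l, ∃ r : R, x = y + r * a := by
  rw [posIdeal_append, Submodule.mem_sup]
  constructor
  · rintro ⟨y, hy, z, hz, rfl⟩
    obtain ⟨r, rfl⟩ := Ideal.mem_span_singleton'.1 hz
    exact ⟨y, hy, r, rfl⟩
  · rintro ⟨y, hy, r, rfl⟩
    exact ⟨y, hy, r * a, Ideal.mem_span_singleton'.2 ⟨r, rfl⟩, rfl⟩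

/-- the abstract winning criterion -/
theorem wins [IsLocalRing R] [IsNoetherianRing R] (J : R → R) (a b : R)
    (h1 : ∀ x ∈ maximalIdeal R, J x ∈ maximalIdeal R)
    (h2 : ∀ x ∈ maximalIdeal R, J (J x) = a * x + b * J x)
    (h3 : ∀ x ∈ maximalIdeal R, ∀ y ∈ maximalIdeal R, J (x + y) = J x + J y)
    (h4 : ∀ r : R, ∀ x ∈ maximalIdeal R, J (r * x) = r * J x)
    (h5 : ∀ r : R, IsUnit (r * r - b * r - a)) :
    BWins (fun l : List R => J (l.getLast?.getD 0)) := by
  set σ : List R → R := fun l => J (l.getLast?.getD 0) with hσ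
  intro α
  have hlast : ∀ n, σ (history σ α n ++ [α n]) = J (α n) := by
    intro n
    simp [hσ]
  let P : ℕ → Prop := fun k => α k ∉ posIdeal (history σ α k) ∧
      posIdeal (history σ α k ++ [α k]) ≠ ⊤
  let Inv : ℕ → Prop := fun k => posIdeal (history σ α k) ≤ maximalIdeal R ∧
      ∀ x ∈ posIdeal (history σ α k), J x ∈ posIdeal (history σ α k)
  -- the step
  have step : ∀ k, Inv k → P k → (J (α k) ∉ posIdeal (history σ α k ++ [α k])) ∧ Inv (k + 1) := by
    rintro k ⟨hI, hJ⟩ ⟨hP1, hP2⟩
    have ha : α k ∈ maximalIdeal R := by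
      have : posIdeal (history σ α k ++ [α k]) ≤ maximalIdeal R :=
        IsLocalRing.le_maximalIdeal hP2
      exact this (mem_append.2 ⟨0, Ideal.zero_mem _, 1, by ring⟩)
    refine ⟨fun hc => ?_, ?_, ?_⟩
    · obtain ⟨x, hx, r, hr⟩ := mem_append.1 hc
      have e : a * α k + b * J (α k) = J x + r * J (α k) := by
        rw [← h2 _ ha, ← h4 _ _ ha, ← h3 _ (hI hx) _ (Ideal.mul_mem_left _ _ ha), ← hr]
      have e2 : (r * r - b * r - a) * α k = b * x - (J x + r * x) := by
        rw [hr] at e
        linear_combination -e
      have e3 : (r * r - b * r - a) * α k ∈ posIdeal (history σ α k) := by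
        rw [e2]
        exact Ideal.sub_mem _ (Ideal.mul_mem_left _ _ hx)
          (Ideal.add_mem _ (hJ x hx) (Ideal.mul_mem_left _ _ hx))
      obtain ⟨u, hu⟩ := (h5 r).exists_left_inv
      apply hP1
      have := Ideal.mul_mem_left _ u e3
      rwa [← mul_assoc, hu, one_mul] at this
    · intro x hx
      change x ∈ posIdeal ((history σ α k ++ [α k]) ++ [σ (history σ α k ++ [α k])]) at hx
      rw [hlast] at hx
      obtain ⟨y, hy, r, rfl⟩ := mem_append.1 hx
      obtain ⟨z, hz, s, rfl⟩ := mem_append.1 hy
      exact Ideal.add_mem _ (Ideal.add_mem _ (hI hz) (Ideal.mul_mem_left _ _ ha))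
        (Ideal.mul_mem_left _ _ (h1 _ ha))
    · intro x hx
      change x ∈ posIdeal ((history σ α k ++ [α k]) ++ [σ (history σ α k ++ [α k])]) at hx
      change J x ∈ posIdeal ((history σ α k ++ [α k]) ++ [σ (history σ α k ++ [α k])])
      rw [hlast] at hx ⊢
      obtain ⟨y, hy, r, rfl⟩ := mem_append.1 hx
      obtain ⟨z, hz, s, rfl⟩ := mem_append.1 hy
      have hsa : s * α k ∈ maximalIdeal R := Ideal.mul_mem_left _ _ ha
      rw [h3 _ (Ideal.add_mem _ (hI hz) hsa) _ (Ideal.mul_mem_left _ _ (h1 _ ha)),
        h3 _ (hI hz) _ hsa, h4 _ _ ha, h4 _ _ (h1 _ ha), h2 _ ha]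
      refine mem_append.2 ⟨J z + (r * a) * α k, mem_append.2 ⟨J z, hJ z hz, r * a, rfl⟩,
        s + r * b, by ring⟩
  have inv0 : Inv 0 := by
    have e : posIdeal (history σ α 0) = ⊥ := by
      simp [posIdeal, history]
    constructor
    · rw [e]; exact bot_le
    · rw [e]
      intro x hx
      rw [Ideal.mem_bot] at hx ⊢
      rw [hx]
      have := h4 0 0 (Ideal.zero_mem _)
      simpa using this
  have mono : ∀ k, posIdeal (history σ α k) ≤ posIdeal (history σ α (k + 1)) := by
    intro k
    change _ ≤ posIdeal ((history σ α k ++ [α k]) ++ [σ (history σ α k ++ [α k])])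
    rw [posIdeal_append, posIdeal_append]
    exact le_sup_left.trans le_sup_left
  have hmem : ∀ k, α k ∈ posIdeal (history σ α (k + 1)) := by
    intro k
    change _ ∈ posIdeal ((history σ α k ++ [α k]) ++ [σ (history σ α k ++ [α k])])
    refine mem_append.2 ⟨α k, mem_append.2 ⟨0, Ideal.zero_mem _, 1, by ring⟩, 0, by ring⟩
  have hex : ∃ k, ¬ P k := by
    by_contra hall
    push Not at hall
    let f : ℕ →o Ideal R := ⟨fun k => posIdeal (history σ α k), monotone_nat_of_le_succ mono⟩
    obtain ⟨n, hn⟩ := monotone_stabilizes_iff_noetherian.2 ‹IsNoetherianRing R› f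
    apply (hall n).1
    have : f n = f (n + 1) := hn (n + 1) (Nat.le_succ n)
    change posIdeal (history σ α n) = posIdeal (history σ α (n + 1)) at this
    rw [this]
    exact hmem n
  classical
  refine ⟨Nat.find hex, ?_, ?_⟩
  · have hlt : ∀ k < Nat.find hex, P k := fun k hk => not_not.1 (Nat.find_min hex hk)
    have hinv : ∀ k ≤ Nat.find hex, Inv k := by
      intro k
      induction k with
      | zero => intro _; exact inv0
      | succ k ih => intro hk; exact (step k (ih (by omega)) (hlt k (by omega))).2
    intro k hk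
    have hPk := hlt k hk
    refine ⟨hPk.1, hPk.2, ?_, ?_⟩
    · rw [hlast]
      exact (step k (hinv k hk.le) hPk).1
    · intro htop
      have := (hinv (k + 1) hk).1
      rw [htop, top_le_iff] at this
      exact Ideal.IsPrime.ne_top' this
  · have := Nat.find_spec hex
    by_contra hc
    push Not at hc
    exact this hc

end game

theorem ring_wins {S : Type u} [CommRing S] [IsLocalRing S] [IsNoetherianRing S] {a b : S}
    (h5 : ∀ r : S, IsUnit (r * r - b * r - a)) :
    ∃ σ : List (Pool.Agent.KS6_79.IC.ring S a b) → Pool.Agent.KS6_79.IC.ring S a b, BWins σ := by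
  have hR : IsNoetherianRing (Pool.Agent.KS6_79.IC.ring S a b) := Pool.Agent.KS6_79.IC.noeth
  exact ⟨_, wins Pool.Agent.KS6_79.IC.J (algebraMap S _ a) (algebraMap S _ b)
    (fun x hx => Pool.Agent.KS6_79.IC.J_mem hx) (fun x hx => Pool.Agent.KS6_79.IC.J_J hx)
    (fun x hx y hy => Pool.Agent.KS6_79.IC.J_add hx hy)
    (fun r x hx => Pool.Agent.KS6_79.IC.J_mul r hx) (Pool.Agent.KS6_79.IC.unit_sq h5)⟩

/-- (1) Let `S` be a Noetherian local ring whose residue field `k` is not quadratically closed: some
polynomial `X ^ 2 - b X - a` over `k` has no root in `k`. Then `S` is a subring of a local ring `R`,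
finite as an `S`-module, with the same residue field and the same Krull dimension, on which the
second player B has a winning strategy in the Ideal Chomp game. If `S` is an integrally closed
domain, then `R` can be chosen to be a domain.

(2) For every field `k` that is not quadratically closed (for example every finite field) and every
`n` there is a Noetherian local domain `R` containing `k`, with residue field `k` and Krull
dimension `n`, on which B has a winning strategy. -/
theorem result :
    (∀ (S : Type u) [CommRing S] [IsLocalRing S] [IsNoetherianRing S],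
      (∃ a b : ResidueField S, ∀ x : ResidueField S, x * x - b * x - a ≠ 0) →
      ∃ (R : Type u) (_ : CommRing R) (_ : IsLocalRing R) (_ : Algebra S R)
        (_ : IsLocalHom (algebraMap S R)),
        Function.Injective (algebraMap S R) ∧ Module.Finite S R ∧ IsNoetherianRing R ∧
        Function.Bijective (ResidueField.map (algebraMap S R)) ∧
        ringKrullDim R = ringKrullDim S ∧ (IsDomain S → IsIntegrallyClosed S → IsDomain R) ∧
        ∃ σ : List R → R, BWins σ) ∧
    ∀ (k : Type u) [Field k], (∃ a b : k, ∀ x : k, x * x - b * x - a ≠ 0) → ∀ n : ℕ,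
      ∃ (R : Type u) (_ : CommRing R) (_ : IsLocalRing R) (_ : Algebra k R),
        IsDomain R ∧ IsNoetherianRing R ∧ ringKrullDim R = n ∧
        Function.Bijective ((residue R).comp (algebraMap k R)) ∧
        ∃ σ : List R → R, BWins σ := by
  refine ⟨?_, ?_⟩
  · intro S _ _ _ ⟨a', b', hab⟩
    obtain ⟨a, rfl⟩ := residue_surjective a'
    obtain ⟨b, rfl⟩ := residue_surjective b'
    have h5 : ∀ r : S, IsUnit (r * r - b * r - a) := by
      intro r
      by_contra hc
      apply hab (residue S r)
      have h1 := (residue_eq_zero_iff _).2 ((mem_maximalIdeal _).2 hc)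
      simpa using h1
    refine ⟨Pool.Agent.KS6_79.IC.ring S a b, inferInstance, inferInstance, inferInstance,
      inferInstance, Pool.Agent.KS6_79.IC.inj, inferInstance, Pool.Agent.KS6_79.IC.noeth,
      Pool.Agent.KS6_79.IC.residue, Pool.Agent.KS6_79.IC.dim, fun _ _ =>
        Pool.Agent.KS6_79.IC.dom h5, ring_wins h5⟩
  · intro k _ ⟨a, b, hab⟩ n
    obtain ⟨S, _, _, _, hD, hI, hN, hd, hres, h5⟩ := Pool.Agent.KS6_79.IC.exists_local k n a b hab
    refine ⟨Pool.Agent.KS6_79.IC.ring S (algebraMap k S a) (algebraMap k S b), inferInstance,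
      inferInstance, inferInstance, Pool.Agent.KS6_79.IC.dom h5, Pool.Agent.KS6_79.IC.noeth,
      ?_, ?_, ring_wins h5⟩
    · rw [Pool.Agent.KS6_79.IC.dim, hd]
    · have h6 := Pool.Agent.KS6_79.IC.residue (S := S) (a := algebraMap k S a)
        (b := algebraMap k S b)
      have h7 := h6.comp hres
      exact h7

end Pool.Agent.Results.MP_ba75bf_co.AnyResidueField
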